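import Pool.Agent.Helper17.CR.Stmts

set_option autoImplicit false

universe u

namespace Pool.Agent.Helper39.CR

open Pool.Agent.Helper17.CR

theorem cent_card (G : Type u) [Group G] [Finite G] (g : G) :
    Nat.card G = Nat.card {x : G // IsConj g x} * Nat.card (Subgroup.centralizer {g}) := by
  have h1 : Nat.card (MulAction.orbit (ConjAct G) g × MulAction.stabilizer (ConjAct G) g) =
      Nat.card (ConjAct G) := Nat.card_congr (MulAction.orbitProdStabilizerEquivGroup (ConjAct G) g)
  rw [Nat.card_prod] at h1
  have h2 : Nat.card (ConjAct G) = Nat.card G := rfl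
  have h3 : Nat.card (MulAction.orbit (ConjAct G) g) = Nat.card {x : G // IsConj g x} := by
    refine Nat.card_congr (Equiv.subtypeEquivRight fun x => ?_)
    rw [ConjAct.mem_orbit_conjAct, isConj_comm]
  rw [← h2, ← h1, h3, Subgroup.nat_card_centralizer_nat_card_stabilizer]

theorem st_CENT : ST_CENT.{u} := by
  classical
  intro G _ _ lam r k a hA g hg hnd
  have hFin := Fintype.ofFinite G
  obtain ⟨α, hα, hdk, hag⟩ := hA.val (orderOf g) 1 hg hnd g (by
    intro h; rw [h, orderOf_one] at hg; exact Nat.not_prime_one hg) (by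
    rw [pow_one]; exact pow_orderOf_eq_one g)
  refine ⟨α, hα, hdk, ?_⟩
  have hval : ∀ x : G, IsConj g x → (a x : ℤ) = k - α := by
    intro x hx
    have hox : orderOf x = orderOf g := by
      obtain ⟨c, hc⟩ := isConj_iff.mp hx
      rw [← hc]
      exact (MulAut.conj c).orderOf_eq g
    obtain ⟨β, hβ, hdb, hax⟩ := hA.val (orderOf g) 1 hg hnd x (by
      intro h; rw [← hox, h, orderOf_one] at hg; exact Nat.not_prime_one hg) (by
      rw [pow_one, ← hox]; exact pow_orderOf_eq_one x)
    have : β = α := by
      have h1 : (β - α) * (β + α) = 0 := by ring_nf; rw [hα, hβ]; ring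
      rcases mul_eq_zero.mp h1 with h | h
      · linarith
      · exfalso
        -- β = -α
        have hb : β = -α := by linarith
        rw [hb] at hdb
        have hq : Prime ((orderOf g : ℕ) : ℤ) := Nat.prime_iff_prime_int.mp hg
        have h2k : ((orderOf g : ℕ) : ℤ) ∣ 2 * k := by
          have := dvd_add hdk hdb
          have e : (k : ℤ) - α + (k - -α) = 2 * k := by ring
          rwa [e] at this
        have h2 : ¬ ((orderOf g : ℕ) : ℤ) ∣ 2 := by
          intro h'
          apply hnd
          have : orderOf g ∣ 2 := by exact_mod_cast h'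
          exact Dvd.dvd.mul_right this lam
        have hk : ((orderOf g : ℕ) : ℤ) ∣ k := (hq.dvd_or_dvd h2k).resolve_left h2
        have hal : ((orderOf g : ℕ) : ℤ) ∣ α := by
          have := dvd_sub hk hdk
          have e : (k : ℤ) - (k - α) = α := by ring
          rwa [e] at this
        have hlam : ((orderOf g : ℕ) : ℤ) ∣ lam := by
          have h5 : ((orderOf g : ℕ) : ℤ) ∣ α ^ 2 := Dvd.dvd.pow hal (by norm_num)
          rw [hα] at h5
          have := dvd_sub hk h5
          have e : (k : ℤ) - (k - lam) = lam := by ring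
          rwa [e] at this
        apply hnd
        have : orderOf g ∣ lam := by exact_mod_cast hlam
        exact Dvd.dvd.mul_left this 2
    rw [hax, this]
  set E : Finset G := Finset.univ.filter (fun x => IsConj g x) with hE
  have h1 := hA.inv E (by
    intro x hx h
    rw [hE, Finset.mem_filter] at hx ⊢
    refine ⟨Finset.mem_univ _, hx.2.trans (isConj_iff.mpr ⟨h, rfl⟩)⟩)
  have h2 : ((∑ x ∈ E, a x : ℕ) : ℤ) = E.card * (k - α) := by
    push_cast
    rw [Finset.sum_congr rfl (fun x hx => hval x (by
      rw [hE, Finset.mem_filter] at hx; exact hx.2)), Finset.sum_const, nsmul_eq_mul]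
  have h3 : Nat.card {x : G // IsConj g x} = E.card := by
    rw [Nat.card_eq_fintype_card, Fintype.card_subtype]
  have h4 : ((Nat.card G : ℕ) : ℤ) ∣ E.card * (k - α) := by
    rw [← h2]; exact_mod_cast h1
  rw [cent_card G g, h3] at h4
  have h5 : (E.card : ℤ) ≠ 0 := by
    have : 0 < E.card := Finset.card_pos.mpr ⟨g, by
      rw [hE, Finset.mem_filter]; exact ⟨Finset.mem_univ _, IsConj.refl g⟩⟩
    exact_mod_cast this.ne'
  push_cast at h4
  exact (mul_dvd_mul_iff_left h5).mp h4

end Pool.Agent.Helper39.CR
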