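import Pool.Agent.Helper17.CR.Stmts

set_option autoImplicit false

universe u

namespace Pool.Agent.Helper39.CR

open Pool.Agent.Helper17.CR

theorem st_FIXQ : ST_FIXQ.{u} := by
  classical
  intro G _ _ p N hp hN hpN g x hg hgp hx
  have hFin := Fintype.ofFinite G
  have hFl : Fact (orderOf g).Prime := ⟨hg⟩
  have hFp : Fact p.Prime := ⟨hp⟩
  let α := {y : G // x⁻¹ * y ∈ N}
  have hstep : ∀ y : G, x⁻¹ * y ∈ N → x⁻¹ * (g * y * g⁻¹) ∈ N := by
    intro y hy
    have e : x⁻¹ * (g * y * g⁻¹) = (x⁻¹ * (g * x * g⁻¹)) * (g * (x⁻¹ * y) * g⁻¹) := by group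
    rw [e]
    exact N.mul_mem hx (hN.conj_mem _ hy g)
  let f : α → α := fun y => ⟨g * y.1 * g⁻¹, hstep y.1 y.2⟩
  have hfinj : Function.Injective f := by
    intro y z h
    have h1 : g * y.1 * g⁻¹ = g * z.1 * g⁻¹ := congrArg Subtype.val h
    exact Subtype.ext (mul_left_cancel (mul_right_cancel h1))
  let σ : Equiv.Perm α := Equiv.ofBijective f (Finite.injective_iff_bijective.mp hfinj)
  have hσ : ∀ (i : ℕ) (y : α), ((σ ^ i) y).1 = g ^ i * y.1 * (g ^ i)⁻¹ := by
    intro i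
    induction i with
    | zero => intro y; simp
    | succ i ih =>
      intro y
      rw [pow_succ', Equiv.Perm.mul_apply]
      have h1 : (σ ((σ ^ i) y)).1 = g * ((σ ^ i) y).1 * g⁻¹ := rfl
      rw [h1, ih y, pow_succ']
      group
  have hσ1 : σ ^ (orderOf g) ^ 1 = 1 := by
    rw [pow_one]
    ext y
    rw [hσ, pow_orderOf_eq_one]
    simp
  have hcard : Fintype.card α = Nat.card N := by
    rw [← Nat.card_eq_fintype_card]
    refine Nat.card_congr ⟨fun y => ⟨x⁻¹ * y.1, y.2⟩, fun n => ⟨x * n.1, by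
      rw [inv_mul_cancel_left]; exact n.2⟩, fun y => ?_, fun n => ?_⟩
    · exact Subtype.ext (mul_inv_cancel_left x y.1)
    · exact Subtype.ext (inv_mul_cancel_left x n.1)
  have hnd : ¬ orderOf g ∣ Fintype.card α := by
    rw [hcard]
    obtain ⟨j, hj⟩ := (IsPGroup.iff_card).mp hpN
    rw [hj]
    intro h
    exact hgp ((Nat.prime_dvd_prime_iff_eq hg hp).mp (hg.dvd_of_dvd_pow h))
  obtain ⟨y, hy⟩ := Equiv.Perm.exists_fixed_point_of_prime hnd hσ1
  refine ⟨x⁻¹ * y.1, y.2, ?_⟩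
  have h1 : g * y.1 * g⁻¹ = y.1 := congrArg Subtype.val hy
  rw [mul_inv_cancel_left]
  exact h1

end Pool.Agent.Helper39.CR
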