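import Pool.Agent.Helper17.CR.Stmts

set_option autoImplicit false

universe u

namespace Pool.Agent.Helper39.CR

open Pool.Agent.Helper17.CR

theorem st_NILC : ST_NILC.{u} := by
  intro G _ _ _ h
  have : IsZGroup G := ⟨fun p hp P => by have hf := Fact.mk hp; exact h p P⟩
  infer_instance

end Pool.Agent.Helper39.CR
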